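import Pool.Agent.Helper98_E.Lowb
import Pool.Agent.Helper78_E.Stmts4

/-!
# MP_7d2497_an, second stage: module LOWFAR
-/

set_option autoImplicit false

namespace Pool.Agent.H78E.H45

open MeasureTheory Filter Topology Complex Pool.Agent.H78E Pool.Agent.H78E.H98

noncomputable section

/-- one cluster -/
structure Clu (x e : ℕ → ℝ) (m : ℝ) : Prop where
  m_pos : 0 < m
  e_pos : ∀ i, 0 < e i
  e_sum : Summable e
  e_le : ∑' i, e i ≤ m + 1
  sep : ∀ N : ℕ, ∃ ρ : ℝ, 0 < ρ ∧ ∀ n : ℕ, N ≤ n → ∀ u : ℝ,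
    ((Finset.range (2 ^ n)).filter (fun i => |x i - u| < ρ)).card ≤ 2 ^ (n - N)

variable {x e : ℕ → ℝ} {m : ℝ}

theorem clu_far (D : Clu x e m) (n : ℕ) (z : ℂ) (hz : z.im ≤ 0)
    {d : ℝ} (hd : 0 < d) (hx : ∀ i, d ≤ ‖z - (x i : ℂ)‖) :
    Real.exp (-((3 * m + 2) / d)) ≤
      ∏ i ∈ Finset.range (2 ^ n), ‖mult (x i) (m * (1 / 2 : ℝ) ^ n) (e i) z‖ := by
  have hm := D.m_pos
  have h1 : ∀ i ∈ Finset.range (2 ^ n), Real.exp (-(2 * e i / d + m * (1 / 2 : ℝ) ^ n / d)) ≤
      ‖mult (x i) (m * (1 / 2 : ℝ) ^ n) (e i) z‖ := by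
    intro i _
    have hw : d ≤ ‖ww (x i) z‖ := by rw [ww_norm]; exact hx i
    have hr : 0 ≤ (ww (x i) z).re := by rw [ww_re]; linarith
    have hei := D.e_pos i
    have a1 := factor_ge hei hd hw hr
    have a2 : Real.exp (-(e i / d)) ≤ ‖ww (x i) z / ((e i : ℂ) + ww (x i) z)‖ :=
      (one_div_ge_exp (by positivity)).trans a1
    have a3 : Real.exp (-(m * (1 / 2 : ℝ) ^ n / d)) ≤
        ‖Complex.exp (-(((m * (1 / 2 : ℝ) ^ n : ℝ) : ℂ) / ww (x i) z))‖ := by
      rw [Complex.norm_exp]
      apply Real.exp_le_exp.mpr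
      rw [Complex.neg_re]
      apply neg_le_neg
      refine (Complex.re_le_norm _).trans ?_
      rw [norm_div, Complex.norm_real, Real.norm_of_nonneg (by positivity)]
      exact div_le_div_of_nonneg_left (by positivity) hd hw
    rw [mult_eq, norm_mul, norm_pow]
    have e1 : Real.exp (-(2 * e i / d + m * (1 / 2 : ℝ) ^ n / d)) =
        (Real.exp (-(e i / d))) ^ 2 * Real.exp (-(m * (1 / 2 : ℝ) ^ n / d)) := by
      rw [← Real.exp_nat_mul, ← Real.exp_add]
      congr 1
      push_cast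
      ring
    rw [e1]
    exact mul_le_mul (pow_le_pow_left₀ (Real.exp_pos _).le a2 2) a3 (Real.exp_pos _).le
      (by positivity)
  refine le_trans ?_ (prod_ge h1)
  apply Real.exp_le_exp.mpr
  apply neg_le_neg
  rw [Finset.sum_add_distrib, Finset.sum_const, Finset.card_range, nsmul_eq_mul]
  have h2 : ∑ i ∈ Finset.range (2 ^ n), 2 * e i / d = 2 / d * ∑ i ∈ Finset.range (2 ^ n), e i := by
    rw [Finset.mul_sum]
    apply Finset.sum_congr rfl
    intro i _
    ring
  have h3 : ∑ i ∈ Finset.range (2 ^ n), e i ≤ m + 1 :=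
    (D.e_sum.sum_le_tsum _ (fun i _ => (D.e_pos i).le)).trans D.e_le
  have h4 : ((2 ^ n : ℕ) : ℝ) * (m * (1 / 2 : ℝ) ^ n / d) = m / d := by
    have := two_pow_half n
    push_cast
    calc (2 : ℝ) ^ n * (m * (1 / 2) ^ n / d) = (2 : ℝ) ^ n * (1 / 2) ^ n * (m / d) := by ring
      _ = m / d := by rw [this, one_mul]
  rw [h2, h4]
  have h5 : 2 / d * ∑ i ∈ Finset.range (2 ^ n), e i ≤ 2 / d * (m + 1) :=
    mul_le_mul_of_nonneg_left h3 (by positivity)
  calc 2 / d * ∑ i ∈ Finset.range (2 ^ n), e i + m / d ≤ 2 / d * (m + 1) + m / d := by linarith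
    _ = (3 * m + 2) / d := by ring

/-- lower bound of the product near the real line -/
theorem clu_near (D : Clu x e m) {η : ℝ} (hη : 0 < η) :
    ∃ B : ℝ, 0 < B ∧ ∃ n0 : ℕ, ∀ n : ℕ, n0 ≤ n → ∀ z : ℂ, z.im < 0 → -z.im ≤ 1 →
      Real.exp (-(B + η / -z.im)) ≤
        ∏ i ∈ Finset.range (2 ^ n), ‖mult (x i) (m * (1 / 2 : ℝ) ^ n) (e i) z‖ := by
  have hm := D.m_pos
  -- the level `N`
  obtain ⟨N, hN⟩ : ∃ N : ℕ, (1 / 2 : ℝ) ^ N < η / (4 * m) :=
    exists_pow_lt_of_lt_one (by positivity) (by norm_num)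
  obtain ⟨ρ, hρ, hsep⟩ := D.sep N
  -- the tail of `e`
  have htail : Tendsto (fun m : ℕ => ∑' k : ℕ, e (k + m)) atTop (𝓝 0) :=
    tendsto_sum_nat_add e
  obtain ⟨I0, hI0⟩ : ∃ I0 : ℕ, ∑' k : ℕ, e (k + I0) < η / 8 :=
    ((htail.eventually (gt_mem_nhds (by positivity : (0 : ℝ) < η / 8))).exists)
  set κ : ℝ := η / (8 * ((I0 : ℝ) + 1)) with hκdef
  have hκ : 0 < κ := by positivity
  set L : ℝ := Real.log (1 + (m + 1) / κ) with hLdef
  have hL : 0 ≤ L := Real.log_nonneg (by
    have : 0 ≤ (m + 1) / κ := by positivity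
    linarith)
  refine ⟨m / ρ ^ 2 + 2 * (I0 : ℝ) * L, by positivity, N, ?_⟩
  intro n hn z hz hz1
  set y : ℝ := -z.im with hy
  have hy0 : 0 < y := by rw [hy]; linarith
  have hei : ∀ i, 0 < e i := D.e_pos
  have he2 : ∀ i, e i ≤ m + 1 := fun i =>
    (D.e_sum.le_tsum i (fun j _ => (hei j).le)).trans D.e_le
  -- exponents
  let b : ℕ → ℝ := fun i => (if i < I0 then 2 * (L + κ / y) else 2 * e i / y) +
    m * (1 / 2 : ℝ) ^ n * (y / (z.im ^ 2 + (z.re - x i) ^ 2))
  have h1 : ∀ i ∈ Finset.range (2 ^ n), Real.exp (-b i) ≤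
      ‖mult (x i) (m * (1 / 2 : ℝ) ^ n) (e i) z‖ := by
    intro i _
    have hr : 0 ≤ (ww (x i) z).re := by rw [ww_re]; linarith
    have hw : y ≤ ‖ww (x i) z‖ := by
      rw [hy, ← ww_re (x i) z]
      exact Complex.re_le_norm _
    have a1 := factor_ge (hei i) hy0 hw hr
    have a2 : Real.exp (-(if i < I0 then 2 * (L + κ / y) else 2 * e i / y)) ≤
        ‖ww (x i) z / ((e i : ℂ) + ww (x i) z)‖ ^ 2 := by
      have a3 : Real.exp (-((if i < I0 then 2 * (L + κ / y) else 2 * e i / y) / 2)) ≤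
          ‖ww (x i) z / ((e i : ℂ) + ww (x i) z)‖ := by
        split_ifs with hi
        · refine le_trans ?_ a1
          rw [Real.exp_neg, ← one_div]
          apply one_div_le_one_div_of_le (by have := hei i; positivity)
          have a4 := lin_le_exp (e := m + 1) (κ := κ) (u := 1 / y) (by positivity) hκ (by positivity)
          have a5 : e i / y ≤ (m + 1) * (1 / y) := by
            rw [div_eq_mul_one_div]
            exact mul_le_mul_of_nonneg_right (he2 i) (by positivity)
          have a6 : 2 * (L + κ / y) / 2 = L + κ * (1 / y) := by ring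
          rw [a6]
          linarith
        · refine le_trans ?_ a1
          have a7 : 2 * e i / y / 2 = e i / y := by ring
          rw [a7]
          exact one_div_ge_exp (by have := hei i; positivity)
      have a8 := pow_le_pow_left₀ (Real.exp_pos _).le a3 2
      rw [← Real.exp_nat_mul] at a8
      refine le_trans (le_of_eq ?_) a8
      congr 1
      push_cast
      ring
    rw [mult_eq, norm_mul, norm_pow, norm_exp_ww]
    have e1 : Real.exp (-b i) = Real.exp (-(if i < I0 then 2 * (L + κ / y) else 2 * e i / y)) *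
        Real.exp (-(m * (1 / 2 : ℝ) ^ n * (y / (z.im ^ 2 + (z.re - x i) ^ 2)))) := by
      rw [← Real.exp_add]
      congr 1
      ring
    rw [e1]
    exact mul_le_mul_of_nonneg_right a2 (Real.exp_pos _).le
  refine le_trans ?_ (prod_ge h1)
  apply Real.exp_le_exp.mpr
  apply neg_le_neg
  -- sum of the exponents
  have hs1 : ∑ i ∈ Finset.range (2 ^ n), (if i < I0 then 2 * (L + κ / y) else 2 * e i / y) ≤
      2 * (I0 : ℝ) * L + η / 2 / y := by
    rw [Finset.sum_ite]
    have c1 : ∑ i ∈ (Finset.range (2 ^ n)).filter (fun i => i < I0), 2 * (L + κ / y) ≤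
        (I0 : ℝ) * (2 * (L + κ / y)) := by
      rw [Finset.sum_const, nsmul_eq_mul]
      apply mul_le_mul_of_nonneg_right _ (by positivity)
      have : ((Finset.range (2 ^ n)).filter (fun i => i < I0)).card ≤ (Finset.range I0).card := by
        apply Finset.card_le_card
        intro i hi
        rw [Finset.mem_filter] at hi
        exact Finset.mem_range.mpr hi.2
      rw [Finset.card_range] at this
      exact_mod_cast this
    have c2 : ∑ i ∈ (Finset.range (2 ^ n)).filter (fun i => ¬ i < I0), 2 * e i / y ≤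
        2 / y * (η / 8) := by
      have c3 : ∑ i ∈ (Finset.range (2 ^ n)).filter (fun i => ¬ i < I0), e i ≤
          ∑' k : ℕ, e (k + I0) := by
        have c4 : ∑ i ∈ (Finset.range (2 ^ n)).filter (fun i => ¬ i < I0), e i =
            ∑ k ∈ ((Finset.range (2 ^ n)).filter (fun i => ¬ i < I0)).image (fun i => i - I0),
              e (k + I0) := by
          rw [Finset.sum_image]
          · apply Finset.sum_congr rfl
            intro i hi
            rw [Finset.mem_filter] at hi
            congr 1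
            omega
          · intro i hi j hj hij
            rw [Finset.mem_coe, Finset.mem_filter] at hi hj
            simp only at hij
            omega
        rw [c4]
        exact ((summable_nat_add_iff I0).mpr D.e_sum).sum_le_tsum _ (fun i _ => (hei _).le)
      calc ∑ i ∈ (Finset.range (2 ^ n)).filter (fun i => ¬ i < I0), 2 * e i / y
          = 2 / y * ∑ i ∈ (Finset.range (2 ^ n)).filter (fun i => ¬ i < I0), e i := by
            rw [Finset.mul_sum]
            apply Finset.sum_congr rfl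
            intro i _
            ring
        _ ≤ 2 / y * (η / 8) := mul_le_mul_of_nonneg_left (c3.trans hI0.le) (by positivity)
    have c5 : (I0 : ℝ) * (2 * (L + κ / y)) ≤ 2 * (I0 : ℝ) * L + 2 / y * (η / 8) := by
      have c6 : (I0 : ℝ) * κ ≤ η / 8 := by
        rw [hκdef, ← mul_div_assoc, div_le_div_iff₀ (by positivity) (by norm_num)]
        nlinarith
      have c7 : (I0 : ℝ) * (2 * (L + κ / y)) = 2 * (I0 : ℝ) * L + 2 / y * ((I0 : ℝ) * κ) := by
        ring
      rw [c7]
      have := mul_le_mul_of_nonneg_left c6 (by positivity : 0 ≤ 2 / y)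
      linarith
    have c8 : 2 / y * (η / 8) + 2 / y * (η / 8) = η / 2 / y := by
      ring
    linarith
  have hs2 : ∑ i ∈ Finset.range (2 ^ n),
      m * (1 / 2 : ℝ) ^ n * (y / (z.im ^ 2 + (z.re - x i) ^ 2)) ≤ m / ρ ^ 2 + η / 4 / y := by
    rw [← Finset.mul_sum]
    have d1 : ∀ i ∈ Finset.range (2 ^ n), y / (z.im ^ 2 + (z.re - x i) ^ 2) ≤
        1 / ρ ^ 2 + (if |x i - z.re| < ρ then 1 / y else 0) := by
      intro i _
      have hz2 : z.im ^ 2 = y ^ 2 := by rw [hy]; ring
      split_ifs with hi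
      · have : y / (z.im ^ 2 + (z.re - x i) ^ 2) ≤ 1 / y := by
          rw [hz2, div_le_div_iff₀ (by positivity) hy0]
          nlinarith [sq_nonneg (z.re - x i)]
        have : 0 ≤ 1 / ρ ^ 2 := by positivity
        linarith
      · push Not at hi
        have : y / (z.im ^ 2 + (z.re - x i) ^ 2) ≤ 1 / ρ ^ 2 := by
          have h3 : ρ ^ 2 ≤ (z.re - x i) ^ 2 := by
            rw [← sq_abs (z.re - x i), abs_sub_comm]
            exact pow_le_pow_left₀ hρ.le hi 2
          rw [hz2, div_le_div_iff₀ (by positivity) (by positivity)]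
          nlinarith [sq_nonneg y]
        linarith
    have d2 : ∑ i ∈ Finset.range (2 ^ n), y / (z.im ^ 2 + (z.re - x i) ^ 2) ≤
        (2 : ℝ) ^ n * (1 / ρ ^ 2) + 2 ^ (n - N) * (1 / y) := by
      refine (Finset.sum_le_sum d1).trans ?_
      rw [Finset.sum_add_distrib, Finset.sum_const, Finset.card_range, nsmul_eq_mul,
        ← Finset.sum_filter, Finset.sum_const, nsmul_eq_mul]
      have h4 : ((((Finset.range (2 ^ n)).filter (fun i => |x i - z.re| < ρ)).card : ℕ) : ℝ) ≤
          2 ^ (n - N) := by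
        exact_mod_cast hsep n hn z.re
      have h5 := mul_le_mul_of_nonneg_right h4 (by positivity : 0 ≤ 1 / y)
      push_cast
      linarith
    have d3 := mul_le_mul_of_nonneg_left d2 (by positivity : 0 ≤ m * (1 / 2 : ℝ) ^ n)
    refine d3.trans ?_
    have d4 : m * (1 / 2 : ℝ) ^ n * ((2 : ℝ) ^ n * (1 / ρ ^ 2) + 2 ^ (n - N) * (1 / y)) =
        m / ρ ^ 2 + m * (1 / 2 : ℝ) ^ N * (1 / y) := by
      have e2 : (1 / 2 : ℝ) ^ n * (2 : ℝ) ^ n = 1 := by rw [mul_comm]; exact two_pow_half n
      have e3 : (1 / 2 : ℝ) ^ n * (2 : ℝ) ^ (n - N) = (1 / 2 : ℝ) ^ N := by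
        obtain ⟨k, rfl⟩ := Nat.exists_eq_add_of_le hn
        rw [Nat.add_sub_cancel_left, pow_add, mul_assoc, mul_comm ((1 / 2 : ℝ) ^ k), two_pow_half,
          mul_one]
      calc _ = m * ((1 / 2 : ℝ) ^ n * (2 : ℝ) ^ n) * (1 / ρ ^ 2) +
            m * ((1 / 2 : ℝ) ^ n * (2 : ℝ) ^ (n - N)) * (1 / y) := by ring
        _ = _ := by rw [e2, e3]; ring
    rw [d4]
    have d5 : m * (1 / 2 : ℝ) ^ N * (1 / y) ≤ η / 4 / y := by
      rw [div_eq_mul_one_div (η / 4) y]
      apply mul_le_mul_of_nonneg_right _ (by positivity)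
      have := mul_le_mul_of_nonneg_left hN.le hm.le
      calc m * (1 / 2 : ℝ) ^ N ≤ m * (η / (4 * m)) := this
        _ = η / 4 := by field_simp
    linarith
  calc ∑ i ∈ Finset.range (2 ^ n), b i
      = ∑ i ∈ Finset.range (2 ^ n), (if i < I0 then 2 * (L + κ / y) else 2 * e i / y) +
        ∑ i ∈ Finset.range (2 ^ n), m * (1 / 2 : ℝ) ^ n * (y / (z.im ^ 2 + (z.re - x i) ^ 2)) :=
        Finset.sum_add_distrib
    _ ≤ m / ρ ^ 2 + 2 * (I0 : ℝ) * L + η / y := by
        have e4 : η / 2 / y + η / 4 / y ≤ η / y := by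
          have : η / 2 / y + η / 4 / y = (3 / 4) * (η / y) := by ring
          rw [this]
          have : 0 ≤ η / y := by positivity
          linarith
        linarith

/-! ### the product of all clusters -/

theorem clu_of {L : Set ℝ} (D : FarData L) (j : ℕ) : Clu (D.x j) (D.e j) (D.m j) where
  m_pos := by linarith [D.m_one j]
  e_pos := D.e_pos j
  e_sum := D.e_sum j
  e_le := D.e_le j
  sep := D.sep j

/-- the norm of the product of the `j`-th cluster -/
def Qj {L : Set ℝ} (D : FarData L) (j v : ℕ) (z : ℂ) : ℝ :=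
  ∏ i ∈ Finset.range (2 ^ v), ‖mult (D.x j i) (D.m j * (1 / 2 : ℝ) ^ v) (D.e j i) z‖

theorem chi_fn_norm' {L : Set ℝ} (D : FarData L) (n : ℕ) (z : ℂ) (hz : z.im ≤ 0)
    (hx : ∀ j i, z ≠ (D.x j i : ℂ)) :
    ‖chi z (D.fn n)‖ * ‖1 + Complex.I * z‖ = ∏ j ∈ Finset.range n, Qj D j (D.v n) z := by
  rw [D.chi_fn n z hz hx, chi_rr hz, norm_mul, norm_prod, mul_assoc, ← norm_mul,
    one_div_mul_cancel (one_add_ne hz)]
  simp [Qj]

theorem chi_lim' {L : Set ℝ} (D : FarData L) (z : ℂ) :
    Tendsto (fun n => ‖chi z (D.fn n)‖ * ‖1 + Complex.I * z‖) atTop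
      (𝓝 (‖chi z D.f‖ * ‖1 + Complex.I * z‖)) :=
  ((((chi z).continuous.tendsto D.f).comp D.lim).norm).mul_const _

theorem m_div {L : Set ℝ} (D : FarData L) (j : ℕ) : (3 * D.m j + 2) / (2 / 5 * |D.x j 0|) ≤
    4 * (1 / 2 : ℝ) ^ j := by
  have h1 := D.x_large j
  have h2 := D.m_small j
  have h3 := D.m_one j
  have h4 : (1 : ℝ) ≤ 4 ^ j := one_le_pow₀ (by norm_num)
  have hx : 0 < |D.x j 0| := by linarith
  set X := |D.x j 0| with hX
  set r := Real.sqrt X with hr
  have hr0 : 0 < r := Real.sqrt_pos.2 hx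
  have hrX : r * r = X := Real.mul_self_sqrt hx.le
  have h2j : 0 < (2 : ℝ) ^ j := by positivity
  have h5 : 3 * (2 : ℝ) ^ j ≤ r := by
    rw [hr]
    apply Real.le_sqrt_of_sq_le
    have : (3 * (2 : ℝ) ^ j) ^ 2 = 9 * 4 ^ j := by
      rw [mul_pow, ← pow_mul, mul_comm j 2, pow_mul]
      norm_num
    rw [this]
    linarith
  have h6 : 3 * D.m j + 2 ≤ 5 * D.m j := by linarith
  have h7 : (1 / 2 : ℝ) ^ j = 1 / 2 ^ j := by rw [div_pow, one_pow]
  rw [h7, div_le_iff₀ (by positivity)]
  have h8 : 4 * (1 / (2 : ℝ) ^ j) * (2 / 5 * X) = 8 / 5 * X / 2 ^ j := by ring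
  rw [h8, le_div_iff₀ h2j]
  calc (3 * D.m j + 2) * 2 ^ j ≤ 5 * D.m j * 2 ^ j := mul_le_mul_of_nonneg_right h6 h2j.le
    _ = 5 * (D.m j * 2 ^ j) := by ring
    _ ≤ 5 * r := by linarith
    _ ≤ 8 / 5 * X := by
        have : (3 : ℝ) ≤ r := by
          have : (1 : ℝ) ≤ 2 ^ j := one_le_pow₀ (by norm_num)
          linarith
        nlinarith

/-- a far cluster -/
theorem Q_far {L : Set ℝ} (D : FarData L) (j v : ℕ) (z : ℂ) (hz : z.im ≤ 0)
    (h : 2 * ‖z‖ ≤ |D.x j 0|) : Real.exp (-(4 * (1 / 2 : ℝ) ^ j)) ≤ Qj D j v z := by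
  have h1 := D.x_large j
  have h4 : (1 : ℝ) ≤ 4 ^ j := one_le_pow₀ (by norm_num)
  have hx : 10 ≤ |D.x j 0| := by linarith
  refine le_trans ?_ (clu_far (clu_of D j) v z hz (d := 2 / 5 * |D.x j 0|) (by positivity) ?_)
  · rw [Real.exp_le_exp]
    exact neg_le_neg (m_div D j)
  · intro i
    have h2 := D.x_near j i
    have h3 : |D.x j 0| - 1 ≤ |D.x j i| := by
      have := abs_sub_abs_le_abs_sub (D.x j 0) (D.x j i)
      rw [abs_sub_comm] at this
      linarith
    have h5 : |D.x j i| - ‖z‖ ≤ ‖z - (D.x j i : ℂ)‖ := by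
      have := norm_sub_norm_le (D.x j i : ℂ) z
      rw [Complex.norm_real, Real.norm_eq_abs, norm_sub_rev] at this
      exact this
    linarith

/-- any cluster, off the real line -/
theorem Q_any {L : Set ℝ} (D : FarData L) (j v : ℕ) (z : ℂ) (hz : z.im < 0) :
    Real.exp (-((3 * D.m j + 2) / |z.im|)) ≤ Qj D j v z := by
  refine clu_far (clu_of D j) v z hz.le (abs_pos.2 hz.ne) ?_
  intro i
  rw [← ww_norm]
  refine le_trans ?_ (Complex.re_le_norm _)
  rw [ww_re, abs_of_neg hz]

theorem geom_half (n : ℕ) : ∑ j ∈ Finset.range n, (1 / 2 : ℝ) ^ j ≤ 2 := by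
  have h := geom_sum_eq (by norm_num : (1 / 2 : ℝ) ≠ 1) n
  rw [h]
  have : 0 < (1 / 2 : ℝ) ^ n := by positivity
  rw [div_le_iff_of_neg (by norm_num)]
  linarith

theorem ne_of_im {z : ℂ} (hz : z.im < 0) (t : ℝ) : z ≠ (t : ℂ) := by
  intro h
  rw [h] at hz
  simp at hz

theorem lowFar : LowFarStmt := by
  intro L D
  -- the local statement
  have hB : ∀ η r : ℝ, 0 < η → ∃ c : ℝ, 0 < c ∧ ∀ z : ℂ, z.im < 0 → ‖z‖ ≤ r →
      c * Real.exp (-(η / |z.im|)) ≤ ‖chi z D.f‖ * ‖1 + Complex.I * z‖ := by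
    intro η r hη
    obtain ⟨J, hJ⟩ : ∃ J : ℕ, r < 5 * 4 ^ J := by
      obtain ⟨J, hJ⟩ := pow_unbounded_of_one_lt r (by norm_num : (1 : ℝ) < 4)
      exact ⟨J, by linarith [pow_pos (by norm_num : (0 : ℝ) < 4) J]⟩
    have hnear := fun j : ℕ => clu_near (clu_of D j) (η := η / (J + 1)) (by positivity)
    choose B hB0 n0 hB using hnear
    set S : ℝ := ∑ j ∈ Finset.range J, (B j + (3 * D.m j + 2)) + 8 with hS
    refine ⟨Real.exp (-S), Real.exp_pos _, ?_⟩
    intro z hz hzr
    refine ge_of_tendsto (chi_lim' D z) ?_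
    filter_upwards [eventually_ge_atTop J,
      eventually_ge_atTop (∑ j ∈ Finset.range J, n0 j)] with n hnJ hn
    rw [chi_fn_norm' D n z hz.le (fun j i => ne_of_im hz _), ← Real.exp_add]
    have hb : ∀ j ∈ Finset.range n, Real.exp (-((if j < J then B j + (3 * D.m j + 2) +
        η / (J + 1) / |z.im| else 0) + 4 * (1 / 2 : ℝ) ^ j)) ≤ Qj D j (D.v n) z := by
      intro j _
      have hpow : 0 < 4 * (1 / 2 : ℝ) ^ j := by positivity
      split_ifs with hj
      · have hm := D.m_one j
        have hB0' := hB0 j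
        have hq : 0 ≤ η / (J + 1) / |z.im| := by positivity
        by_cases h1 : -z.im ≤ 1
        · have h2 : n0 j ≤ D.v n := by
            have h3 : n0 j ≤ ∑ j ∈ Finset.range J, n0 j :=
              Finset.single_le_sum (f := n0) (fun i _ => Nat.zero_le _) (Finset.mem_range.2 hj)
            exact h3.trans (hn.trans (D.v_ge n))
          refine le_trans ?_ (hB j (D.v n) h2 z hz h1)
          rw [Real.exp_le_exp, abs_of_neg hz]
          linarith
        · push Not at h1
          refine le_trans ?_ (Q_any D j (D.v n) z hz)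
          rw [Real.exp_le_exp]
          have : (3 * D.m j + 2) / |z.im| ≤ 3 * D.m j + 2 := by
            apply div_le_self (by linarith)
            rw [abs_of_neg hz]
            exact h1.le
          linarith
      · rw [zero_add]
        apply Q_far D j (D.v n) z hz.le
        have h1 := D.x_large j
        have h2 : (4 : ℝ) ^ J ≤ 4 ^ j := pow_le_pow_right₀ (by norm_num) (by omega)
        linarith
    refine le_trans ?_ (prod_ge hb)
    rw [Real.exp_le_exp]
    rw [Finset.sum_add_distrib, ← Finset.mul_sum]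
    have hg := geom_half n
    have hs : ∑ j ∈ Finset.range n, (if j < J then B j + (3 * D.m j + 2) +
        η / (J + 1) / |z.im| else 0) =
        ∑ j ∈ Finset.range J, (B j + (3 * D.m j + 2)) + J * (η / (J + 1) / |z.im|) := by
      rw [← Finset.sum_filter]
      have : (Finset.range n).filter (fun j => j < J) = Finset.range J := by
        ext j
        simp only [Finset.mem_filter, Finset.mem_range]
        omega
      rw [this, Finset.sum_add_distrib, Finset.sum_const, Finset.card_range, nsmul_eq_mul]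
    rw [hs]
    have hJ2 : (J : ℝ) * (η / (J + 1) / |z.im|) ≤ η / |z.im| := by
      have h3 : (J : ℝ) * (η / (J + 1) / |z.im|) = (J / (J + 1)) * (η / |z.im|) := by ring
      rw [h3]
      apply mul_le_of_le_one_left (by positivity)
      rw [div_le_one (by positivity)]
      linarith
    linarith
  refine ⟨?_, hB, ?_⟩
  · intro z hz hzK
    rcases lt_or_eq_of_le hz with hz' | hz'
    · obtain ⟨c, hc, h⟩ := hB 1 ‖z‖ one_pos
      have h1 := h z hz' le_rfl
      intro h0
      rw [h0, norm_zero, zero_mul] at h1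
      have : 0 < c * Real.exp (-(1 / |z.im|)) := by positivity
      linarith
    · -- real points outside K
      have hzr : z = (z.re : ℂ) := by
        apply Complex.ext <;> simp [hz']
      have hnot : z.re ∉ D.K := fun h => hzK ⟨z.re, h, hzr.symm⟩
      obtain ⟨d, hd, hball⟩ := Metric.isOpen_iff.1 D.K_closed.isOpen_compl z.re hnot
      have hdist : ∀ j i, d ≤ ‖z - (D.x j i : ℂ)‖ := by
        intro j i
        by_contra hc
        push Not at hc
        have : D.x j i ∈ Metric.ball z.re d := by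
          rw [Metric.mem_ball, Real.dist_eq]
          rw [hzr, ← Complex.ofReal_sub, Complex.norm_real, Real.norm_eq_abs] at hc
          rw [abs_sub_comm]
          exact hc
        exact hball this (D.x_mem j i)
      obtain ⟨J, hJ⟩ : ∃ J : ℕ, ‖z‖ < 5 * 4 ^ J := by
        obtain ⟨J, hJ⟩ := pow_unbounded_of_one_lt ‖z‖ (by norm_num : (1 : ℝ) < 4)
        exact ⟨J, by linarith [pow_pos (by norm_num : (0 : ℝ) < 4) J]⟩
      have hlow : Real.exp (-(∑ j ∈ Finset.range J, (3 * D.m j + 2) / d + 8)) ≤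
          ‖chi z D.f‖ * ‖1 + Complex.I * z‖ := by
        refine ge_of_tendsto (chi_lim' D z) ?_
        filter_upwards [eventually_ge_atTop J] with n hnJ
        rw [chi_fn_norm' D n z hz (fun j i h => by
          have := hdist j i
          rw [h, sub_self, norm_zero] at this
          linarith)]
        have hb : ∀ j ∈ Finset.range n, Real.exp (-((if j < J then (3 * D.m j + 2) / d else 0) +
            4 * (1 / 2 : ℝ) ^ j)) ≤ Qj D j (D.v n) z := by
          intro j _
          have hpow : 0 < 4 * (1 / 2 : ℝ) ^ j := by positivity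
          split_ifs with hj
          · refine le_trans ?_ (clu_far (clu_of D j) (D.v n) z hz hd (hdist j))
            rw [Real.exp_le_exp]
            linarith
          · rw [zero_add]
            apply Q_far D j (D.v n) z hz
            have h1 := D.x_large j
            have h2 : (4 : ℝ) ^ J ≤ 4 ^ j := pow_le_pow_right₀ (by norm_num) (by omega)
            linarith
        refine le_trans ?_ (prod_ge hb)
        rw [Real.exp_le_exp, Finset.sum_add_distrib, ← Finset.mul_sum]
        have hg := geom_half n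
        have hs : ∑ j ∈ Finset.range n, (if j < J then (3 * D.m j + 2) / d else 0) =
            ∑ j ∈ Finset.range J, (3 * D.m j + 2) / d := by
          rw [← Finset.sum_filter]
          have : (Finset.range n).filter (fun j => j < J) = Finset.range J := by
            ext j
            simp only [Finset.mem_filter, Finset.mem_range]
            omega
          rw [this]
        rw [hs]
        linarith
      intro h0
      rw [h0, norm_zero, zero_mul] at hlow
      linarith [Real.exp_pos (-(∑ j ∈ Finset.range J, (3 * D.m j + 2) / d + 8))]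
  · refine ⟨24, by norm_num, ?_⟩
    intro z hz
    have hy : 0 < |z.im| := abs_pos.2 hz.ne
    refine ge_of_tendsto (chi_lim' D z) ?_
    filter_upwards with n
    rw [chi_fn_norm' D n z hz.le (fun j i => ne_of_im hz _)]
    set a : ℝ := 5 * Real.sqrt (2 * ‖z‖) / |z.im| + 4 with ha
    have ha0 : 0 ≤ a := by positivity
    have hb : ∀ j ∈ Finset.range n, Real.exp (-((1 / 2 : ℝ) ^ j * a)) ≤ Qj D j (D.v n) z := by
      intro j _
      by_cases hj : 2 * ‖z‖ ≤ |D.x j 0|
      · refine le_trans ?_ (Q_far D j (D.v n) z hz.le hj)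
        rw [Real.exp_le_exp]
        apply neg_le_neg
        have : 0 ≤ 5 * Real.sqrt (2 * ‖z‖) / |z.im| := by positivity
        have h2 : 0 < (1 / 2 : ℝ) ^ j := by positivity
        nlinarith
      · push Not at hj
        refine le_trans ?_ (Q_any D j (D.v n) z hz)
        rw [Real.exp_le_exp]
        apply neg_le_neg
        have h1 := D.m_small j
        have h3 := D.m_one j
        have h4 : Real.sqrt |D.x j 0| ≤ Real.sqrt (2 * ‖z‖) := Real.sqrt_le_sqrt hj.le
        have h2 : (1 / 2 : ℝ) ^ j = 1 / 2 ^ j := by rw [div_pow, one_pow]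
        have h2j : 0 < (2 : ℝ) ^ j := by positivity
        have h5 : D.m j ≤ (1 / 2 : ℝ) ^ j * Real.sqrt (2 * ‖z‖) := by
          rw [h2, div_mul_eq_mul_div, one_mul, le_div_iff₀ h2j]
          linarith
        rw [ha, div_le_iff₀ hy]
        have h6 : (1 / 2 : ℝ) ^ j * (5 * Real.sqrt (2 * ‖z‖) / |z.im| + 4) * |z.im| =
            5 * ((1 / 2 : ℝ) ^ j * Real.sqrt (2 * ‖z‖)) + 4 * (1 / 2 : ℝ) ^ j * |z.im| := by
          field_simp
        rw [h6]
        have h7 : 0 ≤ 4 * (1 / 2 : ℝ) ^ j * |z.im| := by positivity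
        linarith
    refine le_trans ?_ (prod_ge hb)
    rw [Real.exp_le_exp]
    apply neg_le_neg
    rw [← Finset.sum_mul]
    have hg := geom_half n
    have h1 : (∑ j ∈ Finset.range n, (1 / 2 : ℝ) ^ j) * a ≤ 2 * a :=
      mul_le_mul_of_nonneg_right hg ha0
    refine h1.trans ?_
    have h2 : Real.sqrt (2 * ‖z‖) ≤ 2 * Real.sqrt (1 + ‖z‖) := by
      have : (2 : ℝ) * Real.sqrt (1 + ‖z‖) = Real.sqrt (4 * (1 + ‖z‖)) := by
        rw [Real.sqrt_mul (by norm_num)]
        congr 1
        rw [show (4 : ℝ) = 2 ^ 2 by norm_num, Real.sqrt_sq (by norm_num)]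
      rw [this]
      apply Real.sqrt_le_sqrt
      linarith [norm_nonneg z]
    have h3 : 1 ≤ Real.sqrt (1 + ‖z‖) := by
      rw [Real.one_le_sqrt]
      linarith [norm_nonneg z]
    set q := Real.sqrt (1 + ‖z‖) with hq
    have h4 : 5 * Real.sqrt (2 * ‖z‖) / |z.im| ≤ 10 * q * (1 / |z.im|) := by
      rw [div_eq_mul_one_div]
      apply mul_le_mul_of_nonneg_right _ (by positivity)
      linarith
    have h5 : 0 < 1 / |z.im| := by positivity
    rw [ha]
    nlinarith [mul_pos (by linarith : 0 < q) h5]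

end

end Pool.Agent.H78E.H45
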