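import Pool.Agent.Helper98_E.Star
import Pool.Agent.Helper78_E.Stmts4

/-!
# MP_7d2497_an, second stage: module STARFAR
-/

set_option autoImplicit false

namespace Pool.Agent.H78E.H45

open MeasureTheory Filter Topology Complex Pool.Agent.H78E Pool.Agent.H78E.H98

noncomputable section

variable {ι : Type}

/-- the bounded analytic function in the right half-plane -/
def hh (p : ℂ → ℂ) (x e : ι → ℝ) (s : Finset ι) (w : ℂ) : ℂ :=
  p (-(Complex.I * w)) * (∏ i ∈ s, rat (x i) (e i) w ^ 2) / (1 + w)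

theorem hh_diff {p : ℂ → ℂ} {x e : ι → ℝ} (he : ∀ i, 0 < e i) (hp : Differentiable ℂ p)
    (s : Finset ι) {w : ℂ} (hw : 0 ≤ w.re) : DifferentiableAt ℂ (hh p x e s) w := by
  unfold hh
  apply DifferentiableAt.div
  · apply DifferentiableAt.mul
    · exact (hp _).comp w (by fun_prop)
    · apply DifferentiableAt.fun_finsetProd
      intro i _
      exact (rat_diff (he i) hw).pow 2
  · fun_prop
  · intro h
    have := congrArg Complex.re h
    simp at this
    linarith

theorem hh_bound {p : ℂ → ℂ} {x e : ι → ℝ} (he : ∀ i, 0 < e i) (hp : Differentiable ℂ p) {C : ℝ}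
    (hC : ∀ z : ℂ, z.im ≤ 0 → ‖p z‖ ≤ C) (s : Finset ι) {M : ℝ}
    (hM : ∀ t : ℝ, ‖hh p x e s ((t : ℂ) * Complex.I)‖ ≤ M) {w : ℂ} (hw : 0 ≤ w.re) :
    ‖hh p x e s w‖ ≤ M := by
  have hC0 : 0 ≤ C := (norm_nonneg _).trans (hC 0 (by simp))
  have hb : ∀ w : ℂ, 0 ≤ w.re → ‖hh p x e s w‖ ≤ C := by
    intro w hw
    unfold hh
    have h1 : 1 ≤ ‖1 + w‖ := by
      have : (1 + w).re ≤ ‖1 + w‖ := Complex.re_le_norm _
      simp at this
      linarith
    rw [norm_div, norm_mul, norm_prod]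
    have h2 : ∏ i ∈ s, ‖rat (x i) (e i) w ^ 2‖ ≤ 1 := by
      apply Finset.prod_le_one
      · intro i _
        positivity
      · intro i _
        rw [norm_pow]
        exact pow_le_one₀ (norm_nonneg _) (rat_le_one (he i) hw)
    have h3 : ‖p (-(Complex.I * w))‖ ≤ C := by
      apply hC
      simp
      exact hw
    have h4 : 0 ≤ ∏ i ∈ s, ‖rat (x i) (e i) w ^ 2‖ :=
      Finset.prod_nonneg (fun i _ => norm_nonneg _)
    have h5 : ‖p (-(Complex.I * w))‖ * ∏ i ∈ s, ‖rat (x i) (e i) w ^ 2‖ ≤ C * 1 :=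
      mul_le_mul h3 h2 h4 hC0
    rw [mul_one] at h5
    rw [div_le_iff₀ (by linarith)]
    nlinarith
  have hcl : closure {z : ℂ | 0 < z.re} = {z : ℂ | 0 ≤ z.re} := Complex.closure_setOfPred_lt_re 0
  have hDC : DiffContOnCl ℂ (hh p x e s) {z : ℂ | 0 < z.re} := by
    apply DifferentiableOn.diffContOnCl
    rw [hcl]
    intro z hz
    exact (hh_diff he hp s hz).differentiableWithinAt
  refine PhragmenLindelof.right_half_plane_of_bounded_on_real hDC ?_ ?_ hM hw
  · refine ⟨0, by norm_num, 0, ?_⟩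
    rw [Asymptotics.isBigO_iff]
    refine ⟨C, ?_⟩
    rw [Filter.eventually_inf_principal]
    filter_upwards with z hz
    simp only [Real.exp_zero, zero_mul, norm_one, mul_one]
    exact hb z (le_of_lt hz)
  · refine ⟨C, ?_⟩
    rw [Filter.eventually_map]
    filter_upwards [eventually_ge_atTop (0 : ℝ)] with t ht
    exact hb _ (by simpa using ht)

theorem star_norm {f : Y} {j : Y} (c : Comb f j) {x e μ : ι → ℝ} (he : ∀ i, 0 < e i)
    (s : Finset ι) (N : Set ℝ) (hN : N.Countable)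
    (g : Y) (hg : ∀ z : ℂ, z.im ≤ 0 → (∀ t ∈ N, z ≠ (t : ℂ)) →
      chi z g = (∏ i ∈ s, mult (x i) (μ i) (e i) z) * chi z rr) (z : ℂ) (hz : z.im < 0) :
    ‖chi z (c.A g)‖ ≤ ‖c.A g‖ * ∏ i ∈ s,
      Real.exp (-(μ i * (-z.im / (z.im ^ 2 + (z.re - x i) ^ 2)))) := by
  have key : ∀ z : ℂ, z.im ≤ 0 → (∀ t ∈ N, z ≠ (t : ℂ)) →
      ‖chi z (c.A g)‖ = ‖hh c.p x e s (Complex.I * z)‖ * ∏ i ∈ s,
        Real.exp (-(μ i * (-z.im / (z.im ^ 2 + (z.re - x i) ^ 2)))) := by
    intro z hz hx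
    rw [c.chi_A z hz, hg z hz hx, chi_rr hz]
    unfold hh
    rw [I_neg_I]
    have h1 : ∏ i ∈ s, mult (x i) (μ i) (e i) z =
        (∏ i ∈ s, rat (x i) (e i) (Complex.I * z) ^ 2) *
          ∏ i ∈ s, Complex.exp (-((μ i : ℂ) / ww (x i) z)) := by
      rw [← Finset.prod_mul_distrib]
      apply Finset.prod_congr rfl
      intro i _
      rw [mult_eq, rat_ww]
    rw [h1]
    have h2 : ∏ i ∈ s, Real.exp (-(μ i * (-z.im / (z.im ^ 2 + (z.re - x i) ^ 2)))) =
        ‖∏ i ∈ s, Complex.exp (-((μ i : ℂ) / ww (x i) z))‖ := by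
      rw [norm_prod]
      apply Finset.prod_congr rfl
      intro i _
      rw [norm_exp_ww]
    rw [h2, ← norm_mul]
    congr 1
    ring
  have hz' : ∀ t ∈ N, z ≠ (t : ℂ) := by
    intro t _ h
    rw [h] at hz
    simp at hz
  rw [key z hz.le hz']
  apply mul_le_mul_of_nonneg_right _ (Finset.prod_nonneg fun i _ => (Real.exp_pos _).le)
  apply hh_bound he c.diff c.bdd s
  · -- the boundary
    have hcont : Continuous fun t : ℝ => ‖hh c.p x e s ((t : ℂ) * Complex.I)‖ := by
      rw [continuous_iff_continuousAt]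
      intro t
      have h1 : ContinuousAt (hh c.p x e s) ((t : ℂ) * Complex.I) :=
        (hh_diff he c.diff s (by simp)).continuousAt
      have h2 : ContinuousAt (fun t : ℝ => (t : ℂ) * Complex.I) t := by fun_prop
      exact (ContinuousAt.comp (f := fun t : ℝ => (t : ℂ) * Complex.I) h1 h2).norm
    have hclosed : IsClosed {t : ℝ | ‖hh c.p x e s ((t : ℂ) * Complex.I)‖ ≤ ‖c.A g‖} :=
      isClosed_le hcont continuous_const
    have hsub : Nᶜ ⊆ {t : ℝ | ‖hh c.p x e s ((t : ℂ) * Complex.I)‖ ≤ ‖c.A g‖} := by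
      intro t ht
      have h1 := key (t : ℂ) (by simp) (by
        intro u hu h
        apply ht
        have : t = u := by exact_mod_cast h
        rw [this]
        exact hu)
      have h2 : ∏ i ∈ s, Real.exp (-(μ i * (-(t : ℂ).im /
          ((t : ℂ).im ^ 2 + ((t : ℂ).re - x i) ^ 2)))) = 1 := by
        apply Finset.prod_eq_one
        intro i _
        simp
      rw [h2, mul_one] at h1
      change ‖hh c.p x e s ((t : ℂ) * Complex.I)‖ ≤ ‖c.A g‖
      rw [mul_comm (t : ℂ) Complex.I, ← h1]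
      have h3 := (chi (t : ℂ)).le_opNorm (c.A g)
      refine h3.trans ?_
      have h4 : ‖chi (t : ℂ)‖ ≤ 1 := chi_norm (by simp)
      calc ‖chi (t : ℂ)‖ * ‖c.A g‖ ≤ 1 * ‖c.A g‖ := mul_le_mul_of_nonneg_right h4 (norm_nonneg _)
        _ = ‖c.A g‖ := one_mul _
    have hdense : Dense Nᶜ := hN.dense_compl ℝ
    intro t
    have : t ∈ closure Nᶜ := by rw [hdense.closure_eq]; trivial
    exact (closure_minimal hsub hclosed) this
  · simp
    exact hz.le

theorem two_pow_half' (n : ℕ) : (((2 ^ n : ℕ) : ℝ)) * (1 / 2 : ℝ) ^ n = 1 := by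
  push_cast
  exact two_pow_half n

theorem starFar : StarFarStmt := by
  intro L D g hg j
  set z : ℂ := (D.x j 0 : ℂ) - Complex.I with hz
  have hzi : z.im = -1 := by rw [hz]; simp
  have hzr : z.re = D.x j 0 := by rw [hz]; simp
  set c : ℝ := Real.exp (-(D.m j / 2)) with hc
  have hcl : IsClosed {j : Y | ‖chi z j‖ ≤ ‖j‖ * c} :=
    isClosed_le ((chi z).continuous.norm) (continuous_norm.mul continuous_const)
  have hsub : (Submodule.span ℂ {g : Y | ∃ s : ℝ, 0 ≤ s ∧ g = YT s D.f} : Set Y) ⊆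
      {j : Y | ‖chi z j‖ ≤ ‖j‖ * c} := by
    intro k hk
    obtain ⟨u⟩ := comb_of_mem hk
    have hlim : Tendsto (fun n => u.A (D.fn n)) atTop (𝓝 k) := by
      have hq := (u.A.continuous.tendsto D.f).comp D.lim
      have hA : u.A D.f = k := u.eq.symm
      rw [hA] at hq
      exact hq
    have h1 : Tendsto (fun n => ‖chi z (u.A (D.fn n))‖) atTop (𝓝 ‖chi z k‖) :=
      (((chi z).continuous.tendsto k).comp hlim).norm
    have h2 : Tendsto (fun n => ‖u.A (D.fn n)‖ * c) atTop (𝓝 (‖k‖ * c)) :=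
      hlim.norm.mul_const c
    refine le_of_tendsto_of_tendsto h1 h2 ?_
    filter_upwards [eventually_gt_atTop j] with n hn
    have h3 := star_norm (ι := ℕ × ℕ) u (x := fun i => D.x i.1 i.2) (e := fun i => D.e i.1 i.2)
      (μ := fun i => D.m i.1 * (1 / 2 : ℝ) ^ D.v n) (fun i => D.e_pos i.1 i.2)
      (Finset.range n ×ˢ Finset.range (2 ^ D.v n)) (Set.range fun i : ℕ × ℕ => D.x i.1 i.2)
      (Set.countable_range _) (D.fn n) (by
        intro z hz hx
        rw [D.chi_fn n z hz (fun a b => hx _ ⟨(a, b), rfl⟩), Finset.prod_product]) z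
      (by rw [hzi]; norm_num)
    refine h3.trans ?_
    apply mul_le_mul_of_nonneg_left _ (norm_nonneg _)
    rw [Finset.prod_product, hzi, hzr]
    have hpos : ∀ a b : ℕ, 0 ≤ D.m a * (1 / 2 : ℝ) ^ D.v n *
        (-(-1) / ((-1) ^ 2 + (D.x j 0 - D.x a b) ^ 2)) := by
      intro a b
      have := D.m_one a
      have : 0 ≤ D.m a := by linarith
      positivity
    have h4 : ∏ a ∈ Finset.range n, ∏ b ∈ Finset.range (2 ^ D.v n),
        Real.exp (-(D.m a * (1 / 2 : ℝ) ^ D.v n *
          (-(-1) / ((-1) ^ 2 + (D.x j 0 - D.x a b) ^ 2)))) ≤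
        ∏ b ∈ Finset.range (2 ^ D.v n), Real.exp (-(D.m j * (1 / 2 : ℝ) ^ D.v n *
          (-(-1) / ((-1) ^ 2 + (D.x j 0 - D.x j b) ^ 2)))) := by
      rw [← Finset.mul_prod_erase (Finset.range n) _ (Finset.mem_range.2 hn)]
      refine mul_le_of_le_one_right (Finset.prod_nonneg fun i _ => (Real.exp_pos _).le) ?_
      apply Finset.prod_le_one
      · intro a _
        exact Finset.prod_nonneg fun i _ => (Real.exp_pos _).le
      · intro a _
        apply Finset.prod_le_one
        · intro b _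
          exact (Real.exp_pos _).le
        · intro b _
          rw [Real.exp_le_one_iff]
          linarith [hpos a b]
    refine h4.trans ?_
    have h5 : ∏ b ∈ Finset.range (2 ^ D.v n), Real.exp (-(D.m j * (1 / 2 : ℝ) ^ D.v n *
          (-(-1) / ((-1) ^ 2 + (D.x j 0 - D.x j b) ^ 2)))) ≤
        ∏ b ∈ Finset.range (2 ^ D.v n), Real.exp (-(D.m j * (1 / 2 : ℝ) ^ D.v n * (1 / 2))) := by
      apply Finset.prod_le_prod
      · intro b _
        exact (Real.exp_pos _).le
      · intro b _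
        rw [Real.exp_le_exp]
        apply neg_le_neg
        have hm : 0 ≤ D.m j := by linarith [D.m_one j]
        apply mul_le_mul_of_nonneg_left _ (by positivity)
        have h6 : (D.x j 0 - D.x j b) ^ 2 ≤ 1 := by
          rw [← sq_abs, abs_sub_comm]
          have := D.x_near j b
          exact pow_le_one₀ (abs_nonneg _) this
        rw [div_le_div_iff₀ (by norm_num) (by positivity)]
        linarith
    refine h5.trans ?_
    rw [Finset.prod_const, Finset.card_range, ← Real.exp_nat_mul, hc, Real.exp_le_exp]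
    have h6 := two_pow_half' (D.v n)
    have h7 : ((2 ^ D.v n : ℕ) : ℝ) * -(D.m j * (1 / 2 : ℝ) ^ D.v n * (1 / 2)) =
        -(D.m j / 2) * (((2 ^ D.v n : ℕ) : ℝ) * (1 / 2 : ℝ) ^ D.v n) := by ring
    rw [h7, h6, mul_one]
  have : g ∈ closure (Submodule.span ℂ {g : Y | ∃ s : ℝ, 0 ≤ s ∧ g = YT s D.f} : Set Y) := by
    rw [← Submodule.topologicalClosure_coe]
    exact hg
  exact (closure_minimal hsub hcl) this

end

end Pool.Agent.H78E.H45
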